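import Pool.Agent.Helper61.P3.St4

/-! Project P3, module SBN: one class, large `n`. -/

set_option autoImplicit false

open MeasureTheory Set Filter Topology
open scoped ENNReal RealInnerProductSpace

namespace Pool.Agent.Helper37.P3

open Pool.Agent.Helper61.P3 Pool.Agent.Helper20.RG Pool.Agent.Helper20.EQ
open Pool.Agent.Helper68.LM (Pl BB Bd Av HL ft fm DQ)
open Pool.Agent.Helper68.EP (elt GapP)

/-- the numbers `2^(-1/160000)` and `2^(-1/4)` -/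
private noncomputable def rr : ℝ := (2 : ℝ) ^ (-(1 / 160000) : ℝ)
private noncomputable def qq : ℝ := (2 : ℝ) ^ (-(1 / 4) : ℝ)

private theorem rr_pos : 0 < rr := Real.rpow_pos_of_pos (by norm_num) _
private theorem qq_pos : 0 < qq := Real.rpow_pos_of_pos (by norm_num) _
private theorem rr_lt : rr < 1 := Real.rpow_lt_one_of_one_lt_of_neg (by norm_num) (by norm_num)
private theorem qq_lt : qq < 1 := Real.rpow_lt_one_of_one_lt_of_neg (by norm_num) (by norm_num)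

private theorem rr_pow (s : ℕ) : rr ^ s = (2 : ℝ) ^ (-((s : ℝ) / 160000)) := by
  unfold rr
  rw [← Real.rpow_natCast, ← Real.rpow_mul (by norm_num)]
  congr 1
  ring

private theorem qq_pow (s : ℕ) : qq ^ s = (2 : ℝ) ^ (-((s : ℝ) / 4)) := by
  unfold qq
  rw [← Real.rpow_natCast, ← Real.rpow_mul (by norm_num)]
  congr 1
  ring

private noncomputable def aa (s : ℕ) : ℝ := (16 * (1 + (s : ℝ)) ^ 2) ^ 6 * rr ^ s

private theorem aa_nn (s : ℕ) : 0 ≤ aa s := by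
  have := rr_pos
  unfold aa
  positivity

private theorem aa_sum : Summable aa := by
  have h1 : Summable (fun n : ℕ => ((n : ℝ) ^ 12 * rr ^ n : ℝ)) :=
    summable_pow_mul_geometric_of_norm_lt_one 12 (by
      rw [Real.norm_of_nonneg rr_pos.le]; exact rr_lt)
  have h2 := ((summable_nat_add_iff 1).2 h1).mul_left (16 ^ 6 / rr)
  refine h2.congr ?_
  intro s
  unfold aa
  have := rr_pos.ne'
  push_cast
  rw [pow_succ rr s]
  field_simp
  ring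

private theorem qq_sum : Summable (fun n : ℕ => qq ^ n) :=
  summable_geometric_of_lt_one qq_pos.le qq_lt

/-- the terms -/
private theorem term_le {C₁ : ℝ} (hC₁ : 1 ≤ C₁) {s n ρ : ℕ} (h : s < 40000 * n) :
    C₁ / (Vs s) ^ 6 * (2 : ℝ) ^ (-((2 * (n : ℝ) + ρ) / 4)) ≤ C₁ * (aa s * (qq ^ n * qq ^ ρ)) := by
  have hs : (s : ℝ) < 40000 * n := by exact_mod_cast h
  have e1 : C₁ / (Vs s) ^ 6 = C₁ * (16 * (1 + (s : ℝ)) ^ 2) ^ 6 := by
    unfold Vs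
    rw [div_pow, one_pow, div_div_eq_mul_div, div_one]
  have e2 : (2 : ℝ) ^ (-((2 * (n : ℝ) + ρ) / 4)) ≤ rr ^ s * (qq ^ n * qq ^ ρ) := by
    rw [rr_pow, qq_pow, qq_pow, ← Real.rpow_add (by norm_num), ← Real.rpow_add (by norm_num)]
    apply Real.rpow_le_rpow_of_exponent_le (by norm_num)
    linarith
  rw [e1]
  have h3 : 0 ≤ C₁ * (16 * (1 + (s : ℝ)) ^ 2) ^ 6 := by positivity
  calc C₁ * (16 * (1 + (s : ℝ)) ^ 2) ^ 6 * (2 : ℝ) ^ (-((2 * (n : ℝ) + ρ) / 4))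
      ≤ C₁ * (16 * (1 + (s : ℝ)) ^ 2) ^ 6 * (rr ^ s * (qq ^ n * qq ^ ρ)) :=
        mul_le_mul_of_nonneg_left e2 h3
    _ = C₁ * (aa s * (qq ^ n * qq ^ ρ)) := by
        unfold aa; ring

private theorem Vs_pos (s : ℕ) : 0 < Vs s := by unfold Vs; positivity

private theorem Vs_le (s : ℕ) : Vs s ≤ 1 := by
  unfold Vs
  have hs : (0 : ℝ) ≤ (s : ℝ) := Nat.cast_nonneg s
  rw [div_le_one (by positivity)]
  nlinarith

theorem hSBN (hSUT : Pool.Agent.Helper61.P3.StSUT) (hNUC : Pool.Agent.Helper61.P3.StNUC) :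
    Pool.Agent.Helper61.P3.StSBN := by
  intro φ τ A c hG hA hGap
  obtain ⟨C₁, U₁, hC₁, -, hS⟩ := hSUT φ τ A c hG hA hGap
  obtain ⟨U₂, -, -, hN, -⟩ := hNUC
  let SA : ℝ := ∑' s, aa s
  let SB : ℝ := ∑' n : ℕ, qq ^ n
  have hSA : 0 ≤ SA := tsum_nonneg aa_nn
  have hSB : 0 ≤ SB := tsum_nonneg fun n => pow_nonneg qq_pos.le n
  refine ⟨max C₁ (C₁ * (SA * (SB * SB))), max U₁ U₂, hC₁.trans (le_max_left _ _), ?_⟩
  intro R₀ f hR hBB hf
  have hR₁ : C₁ ≤ R₀ := (le_max_left _ _).trans hR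
  let T : ℕ × ℕ × ℕ → ℤ → ℝ≥0∞ := fun p l => ∑' u : ℕ,
    (if U₁ ≤ u ∧ (2 : ℝ) ^ (-((u : ℝ) / 20000)) ≤ Vs p.1 then
        ∑' k : ℤ, volume {x | Gd R₀ l f x ∧ TY c φ τ (Vs p.1) u p.2.1 p.2.2 k l f x} else 0)
  have hT : ∀ p : ℕ × ℕ × ℕ, ∑' l : ℤ, ENNReal.ofReal ((2 : ℝ) ^ (3 * l)) * T p l ≤
      ENNReal.ofReal (C₁ / (Vs p.1) ^ 6 * (2 : ℝ) ^ (-((2 * (p.2.1 : ℝ) + p.2.2) / 4))) *
        ∫⁻ x, ENNReal.ofReal (f x) ^ (3 : ℝ) := fun p =>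
    hS (Vs p.1) R₀ p.2.1 p.2.2 f (Vs_pos _) (Vs_le _) hR₁ hBB hf
  have hvol : ∀ l : ℤ, volume {x | Gd R₀ l f x ∧ ∃ (k : ℤ) (s u n ρ : ℕ), max U₁ U₂ ≤ u ∧
        s ≤ 8 * u ∧ s < 40000 * n ∧ TY c φ τ (Vs s) u n ρ k l f x} ≤
      ∑' p : ℕ × ℕ × ℕ, (if p.1 < 40000 * p.2.1 then T p l else 0) := by
    intro l
    let Q : ℕ × ℕ × ℕ → ℕ → ℤ → Set Pl := fun p u k => {x | (max U₁ U₂ ≤ u ∧ p.1 ≤ 8 * u ∧
      p.1 < 40000 * p.2.1) ∧ Gd R₀ l f x ∧ TY c φ τ (Vs p.1) u p.2.1 p.2.2 k l f x}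
    have hsub : {x | Gd R₀ l f x ∧ ∃ (k : ℤ) (s u n ρ : ℕ), max U₁ U₂ ≤ u ∧
        s ≤ 8 * u ∧ s < 40000 * n ∧ TY c φ τ (Vs s) u n ρ k l f x} ⊆
        ⋃ p : ℕ × ℕ × ℕ, ⋃ u : ℕ, ⋃ k : ℤ, Q p u k := by
      rintro x ⟨hx, k, s, u, n, ρ, h1, h2, h3, h4⟩
      simp only [Set.mem_iUnion]
      exact ⟨(s, n, ρ), u, k, ⟨h1, h2, h3⟩, hx, h4⟩
    refine (measure_mono hsub).trans ((measure_iUnion_le _).trans (ENNReal.tsum_le_tsum fun p => ?_))
    by_cases hp : p.1 < 40000 * p.2.1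
    · rw [if_pos hp]
      refine (measure_iUnion_le _).trans (ENNReal.tsum_le_tsum fun u => ?_)
      by_cases hu : max U₁ U₂ ≤ u ∧ p.1 ≤ 8 * u
      · have h5 := (hN p.1 u ((le_max_right _ _).trans hu.1) hu.2).1
        rw [if_pos ⟨(le_max_left _ _).trans hu.1, h5⟩]
        refine (measure_iUnion_le _).trans (ENNReal.tsum_le_tsum fun k => measure_mono ?_)
        rintro x ⟨_, h6, h7⟩
        exact ⟨h6, h7⟩
      · have h6 : (⋃ k : ℤ, Q p u k) = ∅ := by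
          rw [Set.eq_empty_iff_forall_notMem]
          intro x hx
          obtain ⟨k, hk⟩ := Set.mem_iUnion.1 hx
          exact hu ⟨hk.1.1, hk.1.2.1⟩
        rw [h6, measure_empty]
        exact zero_le
    · rw [if_neg hp]
      have h6 : (⋃ u : ℕ, ⋃ k : ℤ, Q p u k) = ∅ := by
        rw [Set.eq_empty_iff_forall_notMem]
        intro x hx
        obtain ⟨u, hx⟩ := Set.mem_iUnion.1 hx
        obtain ⟨k, hk⟩ := Set.mem_iUnion.1 hx
        exact hp hk.1.2.2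
      rw [h6, measure_empty]
  let I : ℝ≥0∞ := ∫⁻ x, ENNReal.ofReal (f x) ^ (3 : ℝ)
  have hsumA : ∑' s, ENNReal.ofReal (aa s) = ENNReal.ofReal SA :=
    (ENNReal.ofReal_tsum_of_nonneg aa_nn aa_sum).symm
  have hsumB : ∑' n : ℕ, ENNReal.ofReal (qq ^ n) = ENNReal.ofReal SB :=
    (ENNReal.ofReal_tsum_of_nonneg (fun n => pow_nonneg qq_pos.le n) qq_sum).symm
  have hC0 : 0 ≤ C₁ := by linarith
  have hprod : ∑' p : ℕ × ℕ × ℕ, ENNReal.ofReal (C₁ * (aa p.1 * (qq ^ p.2.1 * qq ^ p.2.2))) =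
      ENNReal.ofReal (C₁ * (SA * (SB * SB))) := by
    have e1 : ∀ p : ℕ × ℕ × ℕ, ENNReal.ofReal (C₁ * (aa p.1 * (qq ^ p.2.1 * qq ^ p.2.2))) =
        ENNReal.ofReal C₁ * (ENNReal.ofReal (aa p.1) *
          (ENNReal.ofReal (qq ^ p.2.1) * ENNReal.ofReal (qq ^ p.2.2))) := by
      intro p
      rw [ENNReal.ofReal_mul hC0, ENNReal.ofReal_mul (aa_nn _),
        ENNReal.ofReal_mul (pow_nonneg qq_pos.le _)]
    rw [tsum_congr e1, ENNReal.tsum_mul_left, ENNReal.tsum_prod', ENNReal.ofReal_mul hC0,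
      ENNReal.ofReal_mul hSA, ENNReal.ofReal_mul hSB]
    congr 1
    have e2 : ∀ s : ℕ, ∑' q : ℕ × ℕ, ENNReal.ofReal (aa s) *
        (ENNReal.ofReal (qq ^ q.1) * ENNReal.ofReal (qq ^ q.2)) =
        ENNReal.ofReal (aa s) * (ENNReal.ofReal SB * ENNReal.ofReal SB) := by
      intro s
      rw [ENNReal.tsum_mul_left, ENNReal.tsum_prod']
      congr 1
      simp only [ENNReal.tsum_mul_left, hsumB, ENNReal.tsum_mul_right]
    simp only [e2]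
    rw [ENNReal.tsum_mul_right, hsumA]
  calc ∑' l : ℤ, ENNReal.ofReal ((2 : ℝ) ^ (3 * l)) * volume {x | Gd R₀ l f x ∧
        ∃ (k : ℤ) (s u n ρ : ℕ), max U₁ U₂ ≤ u ∧
        s ≤ 8 * u ∧ s < 40000 * n ∧ TY c φ τ (Vs s) u n ρ k l f x}
      ≤ ∑' l : ℤ, ENNReal.ofReal ((2 : ℝ) ^ (3 * l)) *
          ∑' p : ℕ × ℕ × ℕ, (if p.1 < 40000 * p.2.1 then T p l else 0) :=
        ENNReal.tsum_le_tsum fun l => mul_le_mul_right (hvol l) _
    _ = ∑' p : ℕ × ℕ × ℕ, ∑' l : ℤ, ENNReal.ofReal ((2 : ℝ) ^ (3 * l)) *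
          (if p.1 < 40000 * p.2.1 then T p l else 0) := by
        rw [ENNReal.tsum_comm]
        refine tsum_congr fun l => ?_
        rw [ENNReal.tsum_mul_left]
    _ ≤ ∑' p : ℕ × ℕ × ℕ, ENNReal.ofReal (C₁ * (aa p.1 * (qq ^ p.2.1 * qq ^ p.2.2))) * I := by
        refine ENNReal.tsum_le_tsum fun p => ?_
        by_cases hp : p.1 < 40000 * p.2.1
        · simp only [if_pos hp]
          refine (hT p).trans (mul_le_mul_left ?_ _)
          exact ENNReal.ofReal_le_ofReal (term_le hC₁ hp)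
        · simp only [if_neg hp, mul_zero, tsum_zero]
          exact zero_le
    _ = ENNReal.ofReal (C₁ * (SA * (SB * SB))) * I := by
        rw [ENNReal.tsum_mul_right, hprod]
    _ ≤ ENNReal.ofReal (max C₁ (C₁ * (SA * (SB * SB)))) * I :=
        mul_le_mul_left (ENNReal.ofReal_le_ofReal (le_max_right _ _)) _

end Pool.Agent.Helper37.P3
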