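import Pool.Agent.Helper61.P3.St3
import Pool.Agent.Helper4.EQ.M_WAD

/-! Project P3, module WAG: nested windows of general scales. -/

set_option autoImplicit false

open MeasureTheory Set Filter Topology
open scoped ENNReal RealInnerProductSpace

namespace Pool.Agent.Helper37.P3

open Pool.Agent.Helper61.P3 Pool.Agent.Helper20.RG Pool.Agent.Helper20.EQ
open Pool.Agent.Helper68.LM (Pl BB Bd Av HL ft fm DQ)
open Pool.Agent.Helper68.EP (elt GapP)

theorem hWAG : Pool.Agent.Helper61.P3.StWAG := by
  intro e a b V δ he hδ hba hab h1 h2
  have chain : ∀ d i : ℕ, i + d + 1 < e → a (i + d + 1) ≤ b i := by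
    intro d
    induction d with
    | zero => intro i hi; exact hab i hi
    | succ d ih =>
      intro i hi
      have e1 : a (i + (d + 1) + 1) ≤ b (i + d + 1) := hab (i + d + 1) (by omega)
      have e2 : b (i + d + 1) ≤ a (i + d + 1) := hba (i + d + 1) (by omega)
      exact e1.trans (e2.trans (ih i (by omega)))
  have main : ∀ n : ℕ, 1 ≤ n → n ≤ e →
      volume {x | ∀ i < n, x ∈ V i} ≤ ENNReal.ofReal (δ ^ (n - 1)) * volume (V 0) := by
    intro n hn
    induction n, hn using Nat.le_induction with
    | base =>
      intro _
      simp only [Nat.lt_one_iff, forall_eq, Nat.sub_self, pow_zero, ENNReal.ofReal_one, one_mul]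
      exact le_of_eq rfl
    | succ k hk ih =>
      intro hke
      have ih' := ih (by omega)
      have hset : {x : Pl | ∀ i < k + 1, x ∈ V i} = {x | ∀ i < k, x ∈ V i} ∩ V k := by
        ext x
        simp only [Set.mem_ofPred_eq, Set.mem_inter_iff]
        constructor
        · intro h
          exact ⟨fun i hi => h i (by omega), h k (by omega)⟩
        · rintro ⟨h, h'⟩ i hi
          rcases Nat.lt_succ_iff_lt_or_eq.mp hi with h3 | h3
          · exact h i h3
          · rw [h3]; exact h'
      rw [hset]
      have hst := Pool.Agent.Helper4.EQ.step δ (a k) {x | ∀ i < k, x ∈ V i} (V k) (by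
        intro x hx z hz i hi
        refine h1 i (by omega) x (hx i hi) ?_
        refine Pool.Agent.Helper4.EQ.DQ_mono ?_ x hz
        have h4 := chain (k - i - 1) i (by omega)
        have h5 : i + (k - i - 1) + 1 = k := by omega
        rwa [h5] at h4) (h2 k (by omega))
      refine hst.trans ?_
      calc ENNReal.ofReal δ * volume {x | ∀ i < k, x ∈ V i}
          ≤ ENNReal.ofReal δ * (ENNReal.ofReal (δ ^ (k - 1)) * volume (V 0)) := by
            gcongr
        _ = ENNReal.ofReal (δ ^ (k + 1 - 1)) * volume (V 0) := by
            rw [← mul_assoc, ← ENNReal.ofReal_mul hδ]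
            congr 2
            obtain ⟨l, rfl⟩ : ∃ l, k = l + 1 := ⟨k - 1, by omega⟩
            simp only [Nat.add_sub_cancel]
            ring
  exact main e he le_rfl

end Pool.Agent.Helper37.P3
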